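import Pool.Agent.helper19.FR.Spec

/-!
# Row fr:BES of project FR (MP_bf63dc_nt): Bessel's inequality for nearly orthogonal vectors
-/

set_option autoImplicit false

namespace Pool.Agent.FR

open Finset Real Pool.Agent.AT Pool.Agent.OM Pool.Agent.helper85.FC

theorem BES_sum {α ρ : Type} [Fintype α] (R : Finset ρ) (f : ρ → α → ℝ) :
    mean (fun x => ∑ r ∈ R, f r x) = ∑ r ∈ R, mean (f r) := by
  unfold mean
  rw [Finset.sum_comm, Finset.sum_div]

theorem BES_mul {α : Type} [Fintype α] (c : ℝ) (f : α → ℝ) : mean (fun x => c * f x) = c * mean f := by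
  unfold mean
  rw [← Finset.mul_sum, mul_div_assoc]

theorem BES_cs {α : Type} [Fintype α] [Nonempty α] (u v : α → ℝ) :
    mean (fun x => u x * v x) ^ 2 ≤ mean (fun x => u x ^ 2) * mean (fun x => v x ^ 2) := by
  unfold mean
  have h1 := Finset.sum_mul_sq_le_sq_mul_sq Finset.univ u v
  have hc : (0 : ℝ) < Fintype.card α := by exact_mod_cast Fintype.card_pos
  rw [div_pow, div_mul_div_comm, ← pow_two]
  exact div_le_div_of_nonneg_right h1 (by positivity)

theorem BES : BES_stmt := by
  classical
  intro α ρ _ _ R B u δ hδ hδR hu hB hBB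
  obtain ⟨c, hc⟩ : ∃ c : ρ → ℝ, c = fun r => mean (fun x => u x * B r x) := ⟨_, rfl⟩
  obtain ⟨S, hS⟩ : ∃ S : ℝ, S = ∑ r ∈ R, c r ^ 2 := ⟨_, rfl⟩
  have hS0 : 0 ≤ S := by rw [hS]; exact Finset.sum_nonneg fun r _ => sq_nonneg _
  have h1 : mean (fun x => u x * ∑ r ∈ R, c r * B r x) = S := by
    have e1 : (fun x => u x * ∑ r ∈ R, c r * B r x) = fun x => ∑ r ∈ R, c r * (u x * B r x) := by
      funext x
      rw [Finset.mul_sum]
      exact Finset.sum_congr rfl fun r _ => by ring
    rw [e1, BES_sum, hS]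
    refine Finset.sum_congr rfl fun r _ => ?_
    rw [BES_mul, pow_two]
    congr 1
    rw [hc]
  have h2 : mean (fun x => (∑ r ∈ R, c r * B r x) ^ 2) ≤ 2 * S := by
    have e1 : (fun x => (∑ r ∈ R, c r * B r x) ^ 2) = fun x => ∑ r ∈ R, ∑ r' ∈ R, (c r * c r') * (B r x * B r' x) := by
      funext x
      rw [pow_two, Finset.sum_mul_sum]
      exact Finset.sum_congr rfl fun r _ => Finset.sum_congr rfl fun r' _ => by ring
    rw [e1, BES_sum]
    have e2 : ∀ r ∈ R, mean (fun x => ∑ r' ∈ R, (c r * c r') * (B r x * B r' x)) =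
        ∑ r' ∈ R, (c r * c r') * mean (fun x => B r x * B r' x) := by
      intro r _
      rw [BES_sum]
      exact Finset.sum_congr rfl fun r' _ => BES_mul _ _
    rw [Finset.sum_congr rfl e2]
    have e3 : ∀ r ∈ R, ∀ r' ∈ R, (c r * c r') * mean (fun x => B r x * B r' x) ≤ (if r = r' then c r ^ 2 else 0) + δ * (|c r| * |c r'|) := by
      intro r hr r' hr'
      by_cases h : r = r'
      · subst h
        rw [if_pos rfl]
        have e4 : (fun x => B r x * B r x) = fun x => B r x ^ 2 := by
          funext x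
          ring
        rw [e4, ← pow_two]
        have e5 : c r ^ 2 * mean (fun x => B r x ^ 2) ≤ c r ^ 2 * 1 := mul_le_mul_of_nonneg_left (hB r hr) (sq_nonneg _)
        have e6 : 0 ≤ δ * (|c r| * |c r|) := by positivity
        linarith
      · rw [if_neg h, zero_add]
        calc (c r * c r') * mean (fun x => B r x * B r' x) ≤ |(c r * c r') * mean (fun x => B r x * B r' x)| := le_abs_self _
          _ = |c r| * |c r'| * |mean (fun x => B r x * B r' x)| := by rw [abs_mul, abs_mul]
          _ ≤ |c r| * |c r'| * δ := mul_le_mul_of_nonneg_left (hBB r hr r' hr' h) (by positivity)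
          _ = δ * (|c r| * |c r'|) := by ring
    calc ∑ r ∈ R, ∑ r' ∈ R, (c r * c r') * mean (fun x => B r x * B r' x)
        ≤ ∑ r ∈ R, ∑ r' ∈ R, ((if r = r' then c r ^ 2 else 0) + δ * (|c r| * |c r'|)) :=
          Finset.sum_le_sum fun r hr => Finset.sum_le_sum fun r' hr' => e3 r hr r' hr'
      _ = S + δ * (∑ r ∈ R, |c r|) ^ 2 := by
          simp_rw [Finset.sum_add_distrib]
          congr 1
          · rw [hS]
            refine Finset.sum_congr rfl fun r hr => ?_
            rw [Finset.sum_ite_eq, if_pos hr]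
          · simp_rw [← Finset.mul_sum]
            rw [pow_two, Finset.sum_mul]
      _ ≤ S + δ * (#R * S) := by
          have e7 : (∑ r ∈ R, |c r|) ^ 2 ≤ #R * S := by
            have := sq_sum_le_card_mul_sum_sq (s := R) (f := fun r => |c r|)
            simp only [sq_abs] at this
            rw [hS]
            exact this
          have := mul_le_mul_of_nonneg_left e7 hδ
          linarith
      _ ≤ 2 * S := by
          have := mul_le_mul_of_nonneg_right hδR hS0
          linarith
  have h3 := BES_cs u (fun x => ∑ r ∈ R, c r * B r x)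
  rw [h1] at h3
  have h4 : 0 ≤ mean (fun x => (∑ r ∈ R, c r * B r x) ^ 2) := by
    unfold mean
    exact div_nonneg (Finset.sum_nonneg fun x _ => sq_nonneg _) (Nat.cast_nonneg _)
  have h5 : S ^ 2 ≤ 2 * S := by
    calc S ^ 2 ≤ mean (fun x => u x ^ 2) * mean (fun x => (∑ r ∈ R, c r * B r x) ^ 2) := h3
      _ ≤ 1 * mean (fun x => (∑ r ∈ R, c r * B r x) ^ 2) := mul_le_mul_of_nonneg_right hu h4
      _ ≤ 2 * S := by rw [one_mul]; exact h2
  have h6 : S ≤ 2 := by
    by_contra hcon
    have h7 : 2 < S := not_le.1 hcon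
    nlinarith
  have h8 : ∑ r ∈ R, mean (fun x => u x * B r x) ^ 2 = S := by
    rw [hS]
    refine Finset.sum_congr rfl fun r _ => ?_
    rw [hc]
  rw [h8]
  exact h6

end Pool.Agent.FR
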